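import Mathlib

/-!
Convex-cyclic operators on arbitrary separable Banach spaces.
-/

open Filter Topology Set

namespace Run7.h100

section Biorth

variable {𝕜 : Type*} [RCLike 𝕜] {X : Type*} [NormedAddCommGroup X] [NormedSpace 𝕜 X]

/-- A norming functional, or zero at the zero vector. -/
theorem exists_functional (v : X) : ∃ g : X →L[𝕜] 𝕜, v ≠ 0 → g v = 1 := by
  by_cases hv : v = 0
  · exact ⟨0, fun h => absurd hv h⟩
  · obtain ⟨g, _, hg⟩ := exists_dual_vector 𝕜 v (norm_ne_zero_iff.mpr hv)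
    refine ⟨((‖v‖ : 𝕜)⁻¹) • g, fun _ => ?_⟩
    have h1 : ((‖v‖ : ℝ) : 𝕜) ≠ 0 := by
      simpa using hv
    simp [hg, h1]

/-- chosen functional -/
noncomputable def gfun (v : X) : X →L[𝕜] 𝕜 := (exists_functional (𝕜 := 𝕜) v).choose

theorem gfun_spec (v : X) (hv : v ≠ 0) : gfun (𝕜 := 𝕜) v v = 1 :=
  (exists_functional (𝕜 := 𝕜) v).choose_spec hv

variable (𝕜) in
/-- The recursively defined projections. -/
noncomputable def proj (u : ℕ → X) : ℕ → (X →L[𝕜] X)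
  | 0 => 0
  | n + 1 =>
    proj u n +
      ((gfun (𝕜 := 𝕜) (u n - proj u n (u n))).comp
        (ContinuousLinearMap.id 𝕜 X - proj u n)).smulRight (u n - proj u n (u n))

variable (𝕜) in
/-- the vectors -/
noncomputable def xv (u : ℕ → X) (n : ℕ) : X := u n - proj 𝕜 u n (u n)

variable (𝕜) in
/-- the functionals -/
noncomputable def fv (u : ℕ → X) (n : ℕ) : X →L[𝕜] 𝕜 :=
  (gfun (𝕜 := 𝕜) (xv 𝕜 u n)).comp (ContinuousLinearMap.id 𝕜 X - proj 𝕜 u n)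

theorem proj_succ (u : ℕ → X) (n : ℕ) (y : X) :
    proj 𝕜 u (n + 1) y = proj 𝕜 u n y + fv 𝕜 u n y • xv 𝕜 u n := by
  simp [proj, fv, xv]

theorem proj_idem (u : ℕ → X) : ∀ n, (∀ y, proj 𝕜 u n (proj 𝕜 u n y) = proj 𝕜 u n y) := by
  intro n
  induction n with
  | zero => intro y; simp [proj]
  | succ n ih =>
    have hx : proj 𝕜 u n (xv 𝕜 u n) = 0 := by simp [xv, ih]
    have hf : ∀ y, fv 𝕜 u n (proj 𝕜 u n y) = 0 := by
      intro y; simp [fv, ih]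
    have hfx : xv 𝕜 u n ≠ 0 → fv 𝕜 u n (xv 𝕜 u n) = 1 := by
      intro h
      simp only [fv, ContinuousLinearMap.comp_apply, sub_apply,
        ContinuousLinearMap.id_apply, hx, sub_zero]
      exact gfun_spec _ h
    intro y
    simp only [proj_succ, map_add, map_smul, ih, hx, hf, smul_zero, add_zero, zero_smul, zero_add,
      smul_eq_mul]
    by_cases h : xv 𝕜 u n = 0
    · simp [h]
    · rw [hfx h]; simp

theorem proj_xv (u : ℕ → X) (n : ℕ) : proj 𝕜 u n (xv 𝕜 u n) = 0 := by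
  simp [xv, proj_idem]

theorem fv_proj (u : ℕ → X) (n : ℕ) (y : X) : fv 𝕜 u n (proj 𝕜 u n y) = 0 := by
  simp [fv, proj_idem]

theorem fv_xv (u : ℕ → X) (n : ℕ) (h : xv 𝕜 u n ≠ 0) : fv 𝕜 u n (xv 𝕜 u n) = 1 := by
  simp only [fv, ContinuousLinearMap.comp_apply, sub_apply,
    ContinuousLinearMap.id_apply, proj_xv, sub_zero]
  exact gfun_spec _ h

theorem fv_smul_self (u : ℕ → X) (n : ℕ) : fv 𝕜 u n (xv 𝕜 u n) • xv 𝕜 u n = xv 𝕜 u n := by
  by_cases h : xv 𝕜 u n = 0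
  · simp [h]
  · rw [fv_xv u n h, one_smul]

/-- the range of `P_m` is kept by `P_n`, `m ≤ n` -/
theorem proj_mono (u : ℕ → X) {m n : ℕ} (h : m ≤ n) (y : X) :
    proj 𝕜 u n (proj 𝕜 u m y) = proj 𝕜 u m y := by
  induction n, h using Nat.le_induction with
  | base => exact proj_idem u m y
  | succ n hmn ih =>
    rw [proj_succ, ih]
    have : fv 𝕜 u n (proj 𝕜 u m y) = 0 := by
      rw [← ih, fv_proj]
    simp [this]

theorem proj_mono' (u : ℕ → X) {m n : ℕ} (h : m ≤ n) :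
    ∀ y, proj 𝕜 u m (proj 𝕜 u n y) = proj 𝕜 u m y := by
  induction n, h using Nat.le_induction with
  | base => exact proj_idem u m
  | succ n hmn ih =>
    intro y
    rw [proj_succ, map_add, ih, map_smul]
    have : proj 𝕜 u m (xv 𝕜 u n) = 0 := by
      simp [xv, ih]
    simp [this]

theorem proj_succ_xv (u : ℕ → X) (n : ℕ) : proj 𝕜 u (n + 1) (xv 𝕜 u n) = xv 𝕜 u n := by
  rw [proj_succ, proj_xv, fv_smul_self, zero_add]

theorem proj_succ_u (u : ℕ → X) (n : ℕ) : proj 𝕜 u (n + 1) (u n) = u n := by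
  have h : u n = proj 𝕜 u n (u n) + xv 𝕜 u n := by simp [xv]
  conv_lhs => rw [h]
  rw [map_add, proj_succ_xv, proj_mono u (Nat.le_succ n)]
  exact h.symm

theorem proj_xv_of_le (u : ℕ → X) {m n : ℕ} (h : m ≤ n) : proj 𝕜 u m (xv 𝕜 u n) = 0 := by
  rw [← proj_mono' u h, proj_xv, map_zero]

/-- biorthogonality -/
theorem fv_smul_ne (u : ℕ → X) {m n : ℕ} (h : m ≠ n) :
    fv 𝕜 u m (xv 𝕜 u n) • xv 𝕜 u m = 0 := by
  rcases lt_or_gt_of_ne h with h | h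
  · have h1 := proj_succ (𝕜 := 𝕜) u m (xv 𝕜 u n)
    rw [proj_xv_of_le u h, proj_xv_of_le u h.le, zero_add] at h1
    exact h1.symm
  · have h1 : fv 𝕜 u m (xv 𝕜 u n) = 0 := by
      rw [← proj_succ_xv u n, ← proj_mono u (show n + 1 ≤ m from h), fv_proj]
    rw [h1, zero_smul]

theorem proj_mem_span (u : ℕ → X) (n : ℕ) (y : X) :
    proj 𝕜 u n y ∈ Submodule.span 𝕜 (range (xv 𝕜 u)) := by
  induction n with
  | zero => simp [proj]
  | succ n ih =>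
    rw [proj_succ]
    exact Submodule.add_mem _ ih (Submodule.smul_mem _ _ (Submodule.subset_span ⟨n, rfl⟩))

theorem u_mem_span (u : ℕ → X) (n : ℕ) : u n ∈ Submodule.span 𝕜 (range (xv 𝕜 u)) := by
  rw [← proj_succ_u (𝕜 := 𝕜) u n]
  exact proj_mem_span u _ _

/-- a functional vanishing on all `x_n` vanishes, if `u` has dense range -/
theorem eq_zero_of_xv (u : ℕ → X) (hu : DenseRange u) (g : X →L[𝕜] 𝕜)
    (h : ∀ n, g (xv 𝕜 u n) = 0) : g = 0 := by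
  have h1 : ∀ y ∈ Submodule.span 𝕜 (range (xv 𝕜 u)), g y = 0 := by
    intro y hy
    induction hy using Submodule.span_induction with
    | mem x hx => obtain ⟨n, rfl⟩ := hx; exact h n
    | zero => simp
    | add x y _ _ hx hy => rw [map_add, hx, hy, add_zero]
    | smul a x _ hx => rw [map_smul, hx, smul_zero]
  have h2 : (g : X → 𝕜) = (0 : X →L[𝕜] 𝕜) := by
    apply Continuous.ext_on hu g.continuous (0 : X →L[𝕜] 𝕜).continuous
    rintro _ ⟨n, rfl⟩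
    simpa using h1 _ (u_mem_span u n)
  exact DFunLike.coe_injective h2

end Biorth

section Operator

variable {𝕜 : Type*} [RCLike 𝕜] {X : Type*} [NormedAddCommGroup X] [NormedSpace 𝕜 X]
  [CompleteSpace X]

variable (𝕜) in
/-- the small positive numbers -/
noncomputable def eps (u : ℕ → X) (n : ℕ) : ℝ :=
  (1 / 2 : ℝ) ^ n / (1 + ∑ m ∈ Finset.range (n + 1), ‖fv 𝕜 u m‖ * ‖xv 𝕜 u m‖)

theorem denom_pos (u : ℕ → X) (n : ℕ) :
    0 < 1 + ∑ m ∈ Finset.range n, ‖fv 𝕜 u m‖ * ‖xv 𝕜 u m‖ := by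
  have : 0 ≤ ∑ m ∈ Finset.range n, ‖fv 𝕜 u m‖ * ‖xv 𝕜 u m‖ :=
    Finset.sum_nonneg fun i _ => by positivity
  linarith

theorem eps_pos (u : ℕ → X) (n : ℕ) : 0 < eps 𝕜 u n :=
  div_pos (by positivity) (denom_pos u _)

theorem eps_succ_lt (u : ℕ → X) (n : ℕ) : eps 𝕜 u (n + 1) < eps 𝕜 u n := by
  unfold eps
  apply div_lt_div₀
  · exact pow_lt_pow_right_of_lt_one₀ (by norm_num) (by norm_num) (Nat.lt_succ_self n)
  · rw [Finset.sum_range_succ (fun m => ‖fv 𝕜 u m‖ * ‖xv 𝕜 u m‖) (n + 1)]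
    have : 0 ≤ ‖fv 𝕜 u (n + 1)‖ * ‖xv 𝕜 u (n + 1)‖ := by positivity
    linarith
  · positivity
  · exact denom_pos u _

theorem eps_anti (u : ℕ → X) : StrictAnti (eps 𝕜 u) := strictAnti_nat_of_succ_lt (eps_succ_lt u)

theorem eps_mul_le (u : ℕ → X) (n : ℕ) :
    eps 𝕜 u n * (‖fv 𝕜 u n‖ * ‖xv 𝕜 u n‖) ≤ (1 / 2 : ℝ) ^ n := by
  unfold eps
  rw [div_mul_eq_mul_div, div_le_iff₀ (denom_pos u _)]
  apply mul_le_mul_of_nonneg_left _ (by positivity)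
  rw [Finset.sum_range_succ]
  have : 0 ≤ ∑ m ∈ Finset.range n, ‖fv 𝕜 u m‖ * ‖xv 𝕜 u m‖ :=
    Finset.sum_nonneg fun i _ => by positivity
  linarith

theorem summable_terms (u : ℕ → X) :
    Summable fun n => ((eps 𝕜 u n : ℝ) : 𝕜) • (fv 𝕜 u n).smulRight (xv 𝕜 u n) := by
  apply Summable.of_norm_bounded (g := fun n => (1 / 2 : ℝ) ^ n)
    (summable_geometric_of_lt_one (by norm_num) (by norm_num))
  intro n
  rw [norm_smul, ContinuousLinearMap.norm_smulRight_apply, RCLike.norm_ofReal,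
    abs_of_pos (eps_pos u n)]
  exact eps_mul_le u n

variable (𝕜) in
/-- the positive diagonal operator `A = 2 + ∑ ε_n f_n ⊗ x_n` -/
noncomputable def opA (u : ℕ → X) : X →L[𝕜] X :=
  (2 : 𝕜) • ContinuousLinearMap.id 𝕜 X +
    ∑' n, ((eps 𝕜 u n : ℝ) : 𝕜) • (fv 𝕜 u n).smulRight (xv 𝕜 u n)

theorem hasSum_opA (u : ℕ → X) (y : X) :
    HasSum (fun n => ((eps 𝕜 u n : ℝ) : 𝕜) • (fv 𝕜 u n y • xv 𝕜 u n)) (opA 𝕜 u y - (2 : 𝕜) • y) := by
  have h := (summable_terms (𝕜 := 𝕜) u).hasSum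
  have h2 := ((ContinuousLinearMap.apply 𝕜 X y).hasSum h)
  simpa [opA] using h2

theorem opA_xv (u : ℕ → X) (n : ℕ) :
    opA 𝕜 u (xv 𝕜 u n) = (((2 + eps 𝕜 u n : ℝ)) : 𝕜) • xv 𝕜 u n := by
  have h := hasSum_opA (𝕜 := 𝕜) u (xv 𝕜 u n)
  have h2 : HasSum (fun m => ((eps 𝕜 u m : ℝ) : 𝕜) • (fv 𝕜 u m (xv 𝕜 u n) • xv 𝕜 u m))
      (((eps 𝕜 u n : ℝ) : 𝕜) • (fv 𝕜 u n (xv 𝕜 u n) • xv 𝕜 u n)) := by
    apply hasSum_single
    intro m hm
    rw [fv_smul_ne u hm, smul_zero]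
  have h3 := h.unique h2
  rw [fv_smul_self] at h3
  rw [sub_eq_iff_eq_add] at h3
  rw [h3]
  push_cast
  rw [add_smul, add_comm]

theorem fv_opA (u : ℕ → X) (n : ℕ) (hn : xv 𝕜 u n ≠ 0) (y : X) :
    fv 𝕜 u n (opA 𝕜 u y) = (((2 + eps 𝕜 u n : ℝ)) : 𝕜) * fv 𝕜 u n y := by
  have h := (fv 𝕜 u n).hasSum (hasSum_opA (𝕜 := 𝕜) u y)
  have h2 : HasSum (fun m => fv 𝕜 u n (((eps 𝕜 u m : ℝ) : 𝕜) • (fv 𝕜 u m y • xv 𝕜 u m)))
      (fv 𝕜 u n (((eps 𝕜 u n : ℝ) : 𝕜) • (fv 𝕜 u n y • xv 𝕜 u n))) := by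
    apply hasSum_single
    intro m hm
    have h4 := fv_smul_ne (𝕜 := 𝕜) u hm.symm
    have h5 : fv 𝕜 u n (xv 𝕜 u m) = 0 := by
      rcases smul_eq_zero.mp h4 with h | h
      · exact h
      · exact absurd h hn
    simp [h5]
  have h3 := h.unique h2
  rw [map_sub, map_smul, map_smul, map_smul, fv_xv u n hn] at h3
  rw [sub_eq_iff_eq_add] at h3
  rw [h3]
  push_cast
  simp only [smul_eq_mul]
  ring

variable (𝕜) in
/-- coefficients of the cyclic vector -/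
noncomputable def av (u : ℕ → X) (n : ℕ) : ℝ := (1 / 2 : ℝ) ^ n / (1 + ‖xv 𝕜 u n‖)

theorem av_pos (u : ℕ → X) (n : ℕ) : 0 < av 𝕜 u n := by
  unfold av; positivity

theorem av_mul_le (u : ℕ → X) (n : ℕ) : av 𝕜 u n * ‖xv 𝕜 u n‖ ≤ (1 / 2 : ℝ) ^ n := by
  unfold av
  rw [div_mul_eq_mul_div, div_le_iff₀ (by positivity)]
  apply mul_le_mul_of_nonneg_left _ (by positivity)
  linarith

theorem summable_av (u : ℕ → X) : Summable fun n => ((av 𝕜 u n : ℝ) : 𝕜) • xv 𝕜 u n := by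
  apply Summable.of_norm_bounded (g := fun n => (1 / 2 : ℝ) ^ n)
    (summable_geometric_of_lt_one (by norm_num) (by norm_num))
  intro n
  rw [norm_smul, RCLike.norm_ofReal, abs_of_pos (av_pos u n)]
  exact av_mul_le u n

variable (𝕜) in
/-- the cyclic vector -/
noncomputable def cvec (u : ℕ → X) : X := ∑' n, ((av 𝕜 u n : ℝ) : 𝕜) • xv 𝕜 u n

theorem hasSum_pow (u : ℕ → X) (k : ℕ) :
    HasSum (fun n => ((av 𝕜 u n : ℝ) : 𝕜) • ((((2 + eps 𝕜 u n : ℝ)) : 𝕜) ^ k • xv 𝕜 u n))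
      ((opA 𝕜 u ^ k) (cvec 𝕜 u)) := by
  have h0 : ∀ n, (opA 𝕜 u ^ k) (xv 𝕜 u n) = (((2 + eps 𝕜 u n : ℝ)) : 𝕜) ^ k • xv 𝕜 u n := by
    intro n
    induction k with
    | zero => simp
    | succ k ih =>
      rw [pow_succ', mul_apply_eq_comp, ih, map_smul, opA_xv, smul_smul, pow_succ]
  have h := (opA 𝕜 u ^ k).hasSum (summable_av (𝕜 := 𝕜) u).hasSum
  simp only [map_smul, h0] at h
  exact h

end Operator


section Main

variable {𝕜 : Type*} [RCLike 𝕜] {X : Type*} [NormedAddCommGroup X] [NormedSpace 𝕜 X]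
  [CompleteSpace X]

theorem dominant (u : ℕ → X) (hu : DenseRange u) (g : X →L[𝕜] 𝕜) (hg : g ≠ 0) :
    ∃ b : 𝕜, b ≠ 0 ∧ ∃ ρ σ C : ℝ, 1 < ρ ∧ 0 ≤ σ ∧ σ < ρ ∧
      ∀ k : ℕ, ‖g ((opA 𝕜 u ^ k) (cvec 𝕜 u)) - b * ((ρ : ℝ) : 𝕜) ^ k‖ ≤ C * σ ^ k := by
  classical
  have hex : ∃ n, g (xv 𝕜 u n) ≠ 0 := by
    by_contra h
    push Not at h
    exact hg (eq_zero_of_xv u hu g h)
  let n0 := Nat.find hex
  have hn0 : g (xv 𝕜 u n0) ≠ 0 := Nat.find_spec hex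
  have hmin : ∀ m < n0, g (xv 𝕜 u m) = 0 := fun m hm => not_not.mp (Nat.find_min hex hm)
  let c : ℕ → 𝕜 := fun n => ((av 𝕜 u n : ℝ) : 𝕜) * g (xv 𝕜 u n)
  have hc : ∀ n, ‖c n‖ ≤ ‖g‖ * (1 / 2 : ℝ) ^ n := by
    intro n
    simp only [c, norm_mul, RCLike.norm_ofReal, abs_of_pos (av_pos (𝕜 := 𝕜) u n)]
    calc av 𝕜 u n * ‖g (xv 𝕜 u n)‖ ≤ av 𝕜 u n * (‖g‖ * ‖xv 𝕜 u n‖) := by
          apply mul_le_mul_of_nonneg_left (g.le_opNorm _) (av_pos u n).le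
      _ = ‖g‖ * (av 𝕜 u n * ‖xv 𝕜 u n‖) := by ring
      _ ≤ ‖g‖ * (1 / 2 : ℝ) ^ n := by
          apply mul_le_mul_of_nonneg_left (av_mul_le u n) (norm_nonneg _)
  have hgeo : Summable fun n : ℕ => ‖g‖ * (1 / 2 : ℝ) ^ n :=
    (summable_geometric_of_lt_one (by norm_num) (by norm_num)).mul_left _
  refine ⟨c n0, ?_, 2 + eps 𝕜 u n0, 2 + eps 𝕜 u (n0 + 1), ∑' n : ℕ, ‖g‖ * (1 / 2 : ℝ) ^ n, ?_, ?_,
    ?_, ?_⟩
  · simp only [c]
    refine mul_ne_zero ?_ hn0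
    exact_mod_cast (av_pos (𝕜 := 𝕜) u n0).ne'
  · have := eps_pos (𝕜 := 𝕜) u n0
    linarith
  · have := eps_pos (𝕜 := 𝕜) u (n0 + 1)
    linarith
  · have := eps_succ_lt (𝕜 := 𝕜) u n0
    linarith
  · intro k
    have h1 := g.hasSum (hasSum_pow (𝕜 := 𝕜) u k)
    have h2 : (fun n => g (((av 𝕜 u n : ℝ) : 𝕜) • ((((2 + eps 𝕜 u n : ℝ)) : 𝕜) ^ k • xv 𝕜 u n)))
        = fun n => c n * (((2 + eps 𝕜 u n : ℝ)) : 𝕜) ^ k := by
      funext n
      simp only [map_smul, smul_eq_mul, c]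
      ring
    rw [h2] at h1
    -- subtract the dominant term
    have h3 : HasSum (fun n => if n = n0 then 0 else c n * (((2 + eps 𝕜 u n : ℝ)) : 𝕜) ^ k)
        (g ((opA 𝕜 u ^ k) (cvec 𝕜 u)) - c n0 * (((2 + eps 𝕜 u n0 : ℝ)) : 𝕜) ^ k) := by
      have h4 : HasSum (fun n => if n = n0 then c n * (((2 + eps 𝕜 u n : ℝ)) : 𝕜) ^ k else 0)
          (c n0 * (((2 + eps 𝕜 u n0 : ℝ)) : 𝕜) ^ k) := by
        have := hasSum_single (f := fun n => if n = n0 then c n * (((2 + eps 𝕜 u n : ℝ)) : 𝕜) ^ k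
          else 0) n0 (fun m hm => by simp [hm])
        simpa using this
      have h5 := h1.sub h4
      refine h5.congr_fun ?_ |> fun h => h
      intro n
      by_cases hn : n = n0 <;> simp [hn]
    have hbound : ∀ n, ‖(if n = n0 then 0 else c n * (((2 + eps 𝕜 u n : ℝ)) : 𝕜) ^ k)‖ ≤
        (‖g‖ * (1 / 2 : ℝ) ^ n) * (2 + eps 𝕜 u (n0 + 1)) ^ k := by
      intro n
      have hp : 0 ≤ (‖g‖ * (1 / 2 : ℝ) ^ n) * (2 + eps 𝕜 u (n0 + 1)) ^ k := by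
        have := eps_pos (𝕜 := 𝕜) u (n0 + 1)
        positivity
      by_cases hn : n = n0
      · simpa [hn] using hp
      · rw [if_neg hn]
        rcases lt_or_gt_of_ne hn with h | h
        · have : c n = 0 := by simp [c, hmin n h]
          simpa [this] using hp
        · rw [norm_mul, norm_pow, RCLike.norm_ofReal, abs_of_pos (by
            have := eps_pos (𝕜 := 𝕜) u n
            linarith)]
          have h6 : eps 𝕜 u n ≤ eps 𝕜 u (n0 + 1) := (eps_anti (𝕜 := 𝕜) u).antitone h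
          have h7 := eps_pos (𝕜 := 𝕜) u n
          apply mul_le_mul (hc n) _ (by positivity) (by positivity)
          exact pow_le_pow_left₀ (by linarith) (by linarith) k
    have h8 := tsum_of_norm_bounded ((hgeo.hasSum).mul_right ((2 + eps 𝕜 u (n0 + 1)) ^ k)) hbound
    rw [h3.tsum_eq] at h8
    exact h8

theorem unbounded_orbit (ω : 𝕜) (h4 : ω ^ 4 = 1)
    (hpos : ∀ b : 𝕜, b ≠ 0 → ∃ j : ℕ, 0 < RCLike.re (ω ^ j * b))
    (u : ℕ → X) (hu : DenseRange u) (g : X →L[𝕜] 𝕜) (hg : g ≠ 0) (R : ℝ) :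
    ∃ k : ℕ, R < RCLike.re (g (((ω • opA 𝕜 u) ^ k) (cvec 𝕜 u))) := by
  obtain ⟨b, hb, ρ, σ, C, hρ, hσ, hσρ, hk⟩ := dominant (𝕜 := 𝕜) u hu g hg
  obtain ⟨j, hj⟩ := hpos b hb
  have hω : ‖ω‖ = 1 := by
    have : ‖ω‖ ^ 4 = 1 := by rw [← norm_pow, h4, norm_one]
    exact (pow_eq_one_iff_of_nonneg (norm_nonneg _) (by norm_num)).mp this
  set δ := RCLike.re (ω ^ j * b) with hδ
  have key : ∀ m : ℕ, ρ ^ (4 * m + j) * (δ - C * (σ / ρ) ^ (4 * m + j)) ≤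
      RCLike.re (g (((ω • opA 𝕜 u) ^ (4 * m + j)) (cvec 𝕜 u))) := by
    intro m
    set k := 4 * m + j with hkdef
    have hωk : ω ^ k = ω ^ j := by
      rw [hkdef, pow_add, pow_mul, h4, one_pow, one_mul]
    have e1 : g (((ω • opA 𝕜 u) ^ k) (cvec 𝕜 u)) = ω ^ j * g ((opA 𝕜 u ^ k) (cvec 𝕜 u)) := by
      rw [smul_pow, hωk]
      simp
    have e2 : ω ^ j * g ((opA 𝕜 u ^ k) (cvec 𝕜 u)) =
        ((ρ ^ k : ℝ) : 𝕜) * (ω ^ j * b) +
          ω ^ j * (g ((opA 𝕜 u ^ k) (cvec 𝕜 u)) - b * ((ρ : ℝ) : 𝕜) ^ k) := by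
      push_cast
      ring
    rw [e1, e2, map_add, RCLike.re_ofReal_mul]
    have e3 : -(C * σ ^ k) ≤
        RCLike.re (ω ^ j * (g ((opA 𝕜 u ^ k) (cvec 𝕜 u)) - b * ((ρ : ℝ) : 𝕜) ^ k)) := by
      have h1 := RCLike.abs_re_le_norm
        (ω ^ j * (g ((opA 𝕜 u ^ k) (cvec 𝕜 u)) - b * ((ρ : ℝ) : 𝕜) ^ k))
      rw [norm_mul, norm_pow, hω, one_pow, one_mul] at h1
      have h2 := (abs_le.mp (h1.trans (hk k))).1
      exact h2
    have e4 : ρ ^ k * (δ - C * (σ / ρ) ^ k) = ρ ^ k * δ - C * σ ^ k := by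
      have hρ0 : ρ ^ k ≠ 0 := by positivity
      rw [div_pow]
      field_simp
    rw [e4]
    linarith
  have t1 : Tendsto (fun m : ℕ => 4 * m + j) atTop atTop := by
    apply tendsto_atTop_mono (f := fun m : ℕ => m) _ tendsto_id
    intro m
    omega
  have t2 : Tendsto (fun k : ℕ => ρ ^ k * (δ - C * (σ / ρ) ^ k)) atTop atTop := by
    apply Filter.Tendsto.atTop_mul_pos hj (tendsto_pow_atTop_atTop_of_one_lt hρ)
    have h1 : Tendsto (fun k : ℕ => (σ / ρ) ^ k) atTop (𝓝 0) := by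
      apply tendsto_pow_atTop_nhds_zero_of_lt_one
      · positivity
      · rw [div_lt_one (by linarith)]
        exact hσρ
    have h2 := (h1.const_mul C).const_sub δ
    simpa using h2
  have t3 := t2.comp t1
  obtain ⟨m, hm⟩ := (t3.eventually_gt_atTop R).exists
  exact ⟨4 * m + j, lt_of_lt_of_le hm (key m)⟩

end Main

end Run7.h100
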